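import Mathlib
import Pool.Agent.NIPFields.LC.Final
import Pool.Agent.NIPFields.LU.Strong
import Pool.Agent.NIPFields.RC.Unify
import Pool.Agent.NIPFields.RB.DepShelah

set_option autoImplicit false

open FirstOrder FirstOrder.Language FirstOrder.Ring Polynomial

universe u

/-- `C L ℓ A`, for `A ⊆ L`: `L` is the union of the sets of `x`-coordinates of the `L`-rational points
of finitely many curves `y ^ ℓ = a ∏ (x + b) ^ (n b)`, `b ∈ B`, where `B ⊆ A`, `a ≠ 0` and not all
exponents `n b` are divisible by `ℓ`. -/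
def Pool.Agent.Results.MP_3554b5_lc.CharZeroCriterion.C (L : Type u) [Field L] (ℓ : ℕ)
    (A : Set L) : Prop :=
  ∃ (B : Finset L) (F : Finset (L × (L → ℕ))), (∀ b ∈ B, b ∈ A) ∧
    (∀ f ∈ F, f.1 ≠ 0 ∧ ∃ b ∈ B, ¬ ℓ ∣ f.2 b) ∧
      ∀ x : L, ∃ f ∈ F, ∃ y : L, y ^ ℓ = f.1 * ∏ b ∈ B, (x + b) ^ f.2 b

/-- `G L ℓ`: some finite `ℓ`-group is not isomorphic to the Galois group of any finite Galois
extension of `L`. -/
def Pool.Agent.Results.MP_3554b5_lc.CharZeroCriterion.G (L : Type u) [Field L] (ℓ : ℕ) : Prop :=
  ∃ (Q : Type) (_ : Group Q), Finite Q ∧ IsPGroup ℓ Q ∧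
    ∀ (M : Type u) [Field M] [Algebra L M], FiniteDimensional L M → IsGalois L M →
      IsEmpty (Q ≃* (M ≃ₐ[L] M))

/-- `S K ℓ`: some finite `ℓ`-group is not isomorphic to the Galois group of any finite Galois
extension of any finite extension of `K`. -/
def Pool.Agent.Results.MP_3554b5_lc.CharZeroCriterion.S (K : Type u) [Field K] (ℓ : ℕ) : Prop :=
  ∃ (Q : Type) (_ : Group Q), Finite Q ∧ IsPGroup ℓ Q ∧
    ∀ (E : Type u) [Field E] [Algebra K E], FiniteDimensional K E →
      ∀ (M : Type u) [Field M] [Algebra E M], FiniteDimensional E M → IsGalois E M →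
        IsEmpty (Q ≃* (M ≃ₐ[E] M))

open Pool.Agent.Results.MP_3554b5_lc.CharZeroCriterion in
/-- Shelah's conjecture for the NIP fields `K` of characteristic zero such that `K` is large and
algebraic over `ℚ`, or for every finite extension `L` of `K` and every prime `ℓ` the `ℓ`-th powers have
finite index in `Lˣ`, or
* for some finite extension `L` of `K` and some prime `ℓ`, such that `L` contains a square root of
  `-1` and not all elements of `L` are `ℓ`-th powers,
  - some finite `ℓ`-group is not isomorphic to the Galois group of any finite Galois extension of any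
    finite extension of `K`, or
  - `K` contains all algebraic numbers and some finite `ℓ`-group is not isomorphic to the Galois group
    of any finite Galois extension of `L`, or
  - `L` contains a primitive `ℓ`-th root of unity and is covered by the rational points of finitely
    many curves `y ^ ℓ = f(x)`, `f` a product of linear factors, not a constant times an `ℓ`-th
    power,

  and for some prime `q`
  - some finite `q`-group is not isomorphic to the Galois group of any finite Galois extension of any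
    finite extension of `K`, or
  - every finite extension `E` of `K` is covered by the rational points of finitely many curves
    `y ^ q = f(x)` as above, the zeros of `f` being algebraic numbers, or `K` contains all algebraic
    numbers and some finite `q`-group is not isomorphic to the Galois group of any finite Galois
    extension of `E`. -/
theorem Pool.Agent.Results.MP_3554b5_lc.CharZeroCriterion.result
    (K : Type u) [Field K] [CharZero K] [CompatibleRing K]
    (hK : ∀ (m k : ℕ) (φ : Language.ring.Formula (Fin m ⊕ Fin k)),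
      ∃ n : ℕ, ∀ (a : Fin n → Fin m → K) (b : Finset (Fin n) → Fin k → K),
        ∃ (i : Fin n) (J : Finset (Fin n)),
          ¬ (φ.Realize (Sum.elim (a i) (b J)) ↔ i ∈ J))
    (h : ((∀ x : K, IsAlgebraic ℤ x) ∧ ∀ f : K[X][X],
        (∃ x y : K, f.evalEval x y = 0 ∧ (Polynomial.derivative f).evalEval x y ≠ 0) →
          {v : K × K | f.evalEval v.1 v.2 = 0}.Infinite) ∨
      (∀ (L : Type u) [Field L] [Algebra K L] [FiniteDimensional K L] (ℓ : ℕ),
          ℓ.Prime → ((powMonoidHom ℓ : Lˣ →* Lˣ).range).FiniteIndex) ∨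
      (∃ (L : Type u) (_ : Field L) (_ : Algebra K L) (ℓ : ℕ),
          FiniteDimensional K L ∧ ℓ.Prime ∧ (∃ i : L, i ^ 2 = -1) ∧ (∃ a : L, ∀ y : L, a ≠ y ^ ℓ) ∧
            (S K ℓ ∨ (Nonempty (AlgebraicClosure ℚ →+* K) ∧ G L ℓ) ∨
              ((∃ ζ : L, IsPrimitiveRoot ζ ℓ) ∧ C L ℓ Set.univ))) ∧
        ∃ q : ℕ, q.Prime ∧
          (S K q ∨ ∀ (E : Type u) [Field E] [Algebra K E] [FiniteDimensional K E],
            C E q {b | IsAlgebraic ℤ b} ∨ (Nonempty (AlgebraicClosure ℚ →+* K) ∧ G E q))) :
    IsSepClosed K ∨ Module.finrank K (AlgebraicClosure K) = 2 ∨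
      ∃ O : ValuationSubring K, O ≠ ⊤ ∧ HenselianLocalRing O ∧
        ∃ (m : ℕ) (ψ : Language.ring.Formula (Fin 1 ⊕ Fin m)) (c : Fin m → K),
          ∀ x : K, x ∈ O ↔ ψ.Realize (Sum.elim (fun _ => x) c) := by
  have keyS : ∀ (K : Type u) [Field K] (ℓ : ℕ), S K ℓ → ∃ (Q : Type) (_ : Group Q),
      Finite Q ∧ IsPGroup ℓ Q ∧ ¬ Pool.Agent.NIPFields.RC.SecF K Q := by
    rintro K _ ℓ ⟨Q, _, h1, h2, h3⟩
    refine ⟨Q, inferInstance, h1, h2, ?_⟩
    rintro ⟨E, _, _, h4, M, _, _, h5, h6, ⟨h7⟩⟩
    exact (h3 E h4 M h5 h6).false h7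
  have h' : IsSepClosed K ∨ Module.finrank K (AlgebraicClosure K) = 2 ∨
      ∃ O : ValuationSubring K, O ≠ ⊤ ∧ HenselianLocalRing O ∧
        (Set.univ : Set K).Definable₁ Language.ring {x | x ∈ O} := by
    rcases h with ⟨halg, hlarge⟩ | h | ⟨⟨L, _, _, ℓ, hfd, hℓ, hi, ha, h⟩, q, hq, hE⟩
    · exact Pool.Agent.NIPFields.LU.shelah_of_large_algebraic0 hK hlarge halg
    · rcases Pool.Agent.NIPFields.LC.shelah_bounded hK
        (Or.inr (Or.inl fun L _ _ _ ℓ hℓ _ => h L ℓ hℓ)) with h0 | h0
      · exact absurd h0 (not_finite_iff_infinite.2 inferInstance)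
      · exact h0
    · have hL0 : CharZero L := charZero_of_injective_algebraMap (algebraMap K L).injective
      refine Or.inr (Or.inr (Pool.Agent.NIPFields.RC.theoremU0 hK (L := L) hℓ hi ha ?_ hq ?_))
      · rcases h with h | h | ⟨hζ, B, F, -, h1, h2⟩
        · exact Or.inr (Or.inl (keyS K ℓ h))
        · exact Or.inr (Or.inr h)
        · have := Pool.Agent.NIPFields.RB.infinite_top (K := L)
          obtain ⟨B', -, hB'⟩ := Pool.Agent.NIPFields.RB.Thin.exists_noRainbow (⊤ : Subfield L) hℓ
            (Nat.cast_ne_zero.2 hℓ.ne_zero) ⟨B, F, fun _ _ => trivial, h1, h2⟩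
          exact Or.inl ⟨hζ, B', _, hB', ∅, by simp, fun x hx =>
            Pool.Agent.NIPFields.RC.Pw_subset_TC hx⟩
      · rcases hE with h | hE
        · exact Or.inl (keyS K q h)
        · refine Or.inr fun E _ _ _ => ?_
          have hE0 : CharZero E := charZero_of_injective_algebraMap (algebraMap K E).injective
          rcases hE E with ⟨B, F, hB, h1, h2⟩ | h
          · have : Infinite (algebraicClosure ℚ E).toSubfield :=
              Infinite.of_injective (fun n : ℕ => (n : (algebraicClosure ℚ E).toSubfield))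
                fun m n h => by
                  have h3 : ((m : (algebraicClosure ℚ E).toSubfield) : E) =
                    ((n : (algebraicClosure ℚ E).toSubfield) : E) := congrArg Subtype.val h
                  exact_mod_cast h3
            obtain ⟨B', hB'k, hB'⟩ := Pool.Agent.NIPFields.RB.Thin.exists_noRainbow
              (algebraicClosure ℚ E).toSubfield hq (Nat.cast_ne_zero.2 hq.ne_zero)
              ⟨B, F, fun b hb => mem_algebraicClosure_iff.2
                ((IsFractionRing.isAlgebraic_iff ℤ ℚ E).1 (hB b hb)), h1, h2⟩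
            exact Or.inl ⟨B', fun b hb => (IsFractionRing.isAlgebraic_iff ℤ ℚ E).2
              (mem_algebraicClosure_iff.1 (hB'k b hb)), hB'⟩
          · exact Or.inr h
  rcases h' with h0 | h0 | ⟨O, hO1, hO2, hO3⟩
  · exact Or.inl h0
  · exact Or.inr (Or.inl h0)
  · exact Or.inr (Or.inr ⟨O, hO1, hO2, Pool.Agent.NIPFields.exists_formula_of_definable hO3⟩)
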