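import Mathlib
import Pool.Agent.NIPFields.LZ.Final
import Pool.Agent.NIPFields.PQ.Ramsey
import Pool.Agent.NIPFields.RB.DepShelah
import Pool.Agent.PCH.Rainbow
import Pool.Agent.NIPFields.Final

set_option autoImplicit false

open FirstOrder FirstOrder.Language FirstOrder.Ring
open scoped Polynomial

universe u v

/-- `K` is a NIP field: no formula `φ(x; y)` of the language of rings shatters sets of arbitrary
finite size in `K`. -/
def Pool.Agent.Results.MP_3554b5_lc.CharZeroEquivalence.NIP (K : Type u) [Field K]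
    [CompatibleRing K] : Prop :=
  ∀ (m n : ℕ) (φ : Language.ring.Formula (Fin m ⊕ Fin n)),
    ∃ N : ℕ, ∀ (a : Fin N → Fin m → K) (b : Finset (Fin N) → Fin n → K),
      ∃ (i : Fin N) (J : Finset (Fin N)),
        ¬ (φ.Realize (Sum.elim (a i) (b J)) ↔ i ∈ J)

/-- The conclusion of Shelah's conjecture for `K`. -/
def Pool.Agent.Results.MP_3554b5_lc.CharZeroEquivalence.Shelah (K : Type u) [Field K]
    [CompatibleRing K] : Prop :=
  Finite K ∨ IsSepClosed K ∨ Module.finrank K (AlgebraicClosure K) = 2 ∨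
    ∃ O : ValuationSubring K, O ≠ ⊤ ∧ HenselianLocalRing O ∧
      ∃ (m : ℕ) (ψ : Language.ring.Formula (Fin 1 ⊕ Fin m)) (c : Fin m → K),
        ∀ x : K, x ∈ O ↔ ψ.Realize (Sum.elim (fun _ => x) c)

/-- `K` is large: a plane curve over `K` with a smooth `K`-rational point has infinitely many
`K`-rational points. -/
def Pool.Agent.Results.MP_3554b5_lc.CharZeroEquivalence.Large (K : Type u) [Field K] : Prop :=
  ∀ f : K[X][X],
    (∃ x y : K, f.evalEval x y = 0 ∧ (Polynomial.derivative f).evalEval x y ≠ 0) →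
      {v : K × K | f.evalEval v.1 v.2 = 0}.Infinite

/-- `K` is the union of the sets of `x`-coordinates of the `K`-rational points of finitely many curves
`y ^ ℓ = a ∏ (x + b) ^ (n b)`, `b ∈ B`, where `a ≠ 0` and not all exponents `n b` are divisible by
`ℓ`. -/
def Pool.Agent.Results.MP_3554b5_lc.CharZeroEquivalence.Thin (K : Type u) [Field K] (ℓ : ℕ) :
    Prop :=
  ∃ (B : Finset K) (F : Finset (K × (K → ℕ))), (∀ f ∈ F, f.1 ≠ 0 ∧ ∃ b ∈ B, ¬ ℓ ∣ f.2 b) ∧
    ∀ x : K, ∃ f ∈ F, ∃ y : K, y ^ ℓ = f.1 * ∏ b ∈ B, (x + b) ^ f.2 b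

open Pool.Agent.Results.MP_3554b5_lc.CharZeroEquivalence in
/-- In characteristic zero Shelah's conjecture is equivalent to the statement that all NIP fields are
large, and to the statement that every NIP field is, for every prime `ℓ`, covered by the rational
points of finitely many curves `y ^ ℓ = f(x)`, where `f` is a product of linear factors and not a
constant times an `ℓ`-th power. The equivalence holds relative to a base field `k` which is algebraic
over `ℚ`: all statements are about the NIP fields `K` which contain `k`. -/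
theorem Pool.Agent.Results.MP_3554b5_lc.CharZeroEquivalence.tfae
    (k : Type v) [Field k] [CharZero k] (hk : ∀ x : k, IsAlgebraic ℤ x) :
    List.TFAE [
      -- Shelah's conjecture for the NIP fields containing `k`
      ∀ (K : Type u) [Field K] [CompatibleRing K] (_ : k →+* K), NIP K → Shelah K,
      -- the NIP fields containing `k` are large
      ∀ (K : Type u) [Field K] [CompatibleRing K] (_ : k →+* K), NIP K → Large K,
      -- a special case of largeness
      ∀ (K : Type u) [Field K] [CompatibleRing K] (_ : k →+* K), NIP K →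
        ∀ ℓ : ℕ, ℓ.Prime → ∀ A : Finset K, ∃ δ : K, δ ≠ 0 ∧
          ∀ a ∈ A, ∃ b : K, b ≠ 0 ∧ 1 + a * δ = b ^ ℓ,
      -- its Ramsey form
      ∀ (K : Type u) [Field K] [CompatibleRing K] (_ : k →+* K), NIP K →
        ∀ ℓ : ℕ, ℓ.Prime → ∀ n : ℕ, ∃ N : ℕ, ∀ B : Finset K, N ≤ B.card →
          ∃ C ⊆ B, C.card = n ∧ ∃ δ : K, δ ≠ 0 ∧
            ∀ a ∈ C, ∃ b : K, b ≠ 0 ∧ 1 + a * δ = b ^ ℓ,
      -- the NIP fields containing `k` are covered by finitely many Kummer curves of degree `ℓ`
      ∀ (K : Type u) [Field K] [CompatibleRing K] (_ : k →+* K), NIP K →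
        ∀ ℓ : ℕ, ℓ.Prime → Thin K ℓ] := by
  tfae_have 1 → 2 := by
    intro h K _ _ φ hK
    have _ : CharZero K := charZero_of_injective_ringHom φ.injective
    refine Pool.Agent.NIPFields.LZ.large_of_shelah_char0 ?_
    rcases h K φ hK with h1 | h1 | h1 | ⟨O, hO, h1, _⟩
    · exact Or.inl h1
    · exact Or.inr (Or.inl h1)
    · exact Or.inr (Or.inr (Or.inl h1))
    · exact Or.inr (Or.inr (Or.inr ⟨O, hO, h1⟩))
  tfae_have 2 → 3 := by
    intro h K _ _ φ hK ℓ hℓ
    have _ : CharZero K := charZero_of_injective_ringHom φ.injective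
    exact Pool.Agent.NIPFields.LG.TL_of_large (h K φ hK) (Nat.cast_ne_zero.2 hℓ.ne_zero)
  tfae_have 3 → 1 := by
    intro h K _ _ φ hK
    have _ : CharZero K := charZero_of_injective_ringHom φ.injective
    rcases Pool.Agent.NIPFields.LZ.shelah_of_TL_char0 hk φ hK
      (fun F _ _ _ ψ hF ℓ hℓ => h F ψ hF ℓ hℓ) with
      h0 | h0 | ⟨O, hO1, hO2, hO3⟩
    · exact Or.inr (Or.inl h0)
    · exact Or.inr (Or.inr (Or.inl h0))
    · exact Or.inr (Or.inr (Or.inr ⟨O, hO1, hO2,
        Pool.Agent.NIPFields.exists_formula_of_definable hO3⟩))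
  tfae_have 3 → 4 := by
    intro h K _ _ φ hK ℓ hℓ n
    refine ⟨n, fun B hB => ?_⟩
    obtain ⟨C, hC, hCn⟩ := Finset.exists_subset_card_eq hB
    obtain ⟨δ, hδ, hδC⟩ := h K φ hK ℓ hℓ C
    exact ⟨C, hC, hCn, δ, hδ, hδC⟩
  tfae_have 4 → 3 := by
    intro h K _ _ φ hK ℓ hℓ
    have _ : CharZero K := charZero_of_injective_ringHom φ.injective
    exact Pool.Agent.NIPFields.PQ.tl_of_ramsey hK hℓ.pos (h K φ hK ℓ hℓ)
  tfae_have 1 → 5 := by
    intro h K _ _ φ hK ℓ hℓ
    have _ : CharZero K := charZero_of_injective_ringHom φ.injective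
    obtain ⟨B, hB⟩ := Pool.Agent.NIPFields.RB.exists_noRainbow_of_shelah (K := K) (ℓ := ℓ) (by
      rcases h K φ hK with h1 | h1 | h1 | ⟨O, hO, h1, _⟩
      · exact Or.inl h1
      · exact Or.inr (Or.inl h1)
      · exact Or.inr (Or.inr (Or.inl h1))
      · exact Or.inr (Or.inr (Or.inr ⟨O, hO, h1⟩))) hℓ
    obtain ⟨B, F, -, h1, h2⟩ := hB.thin hℓ.one_lt
    exact ⟨B, F, h1, h2⟩
  tfae_have 5 → 3 := by
    intro h K _ _ φ hK ℓ hℓ
    have _ : CharZero K := charZero_of_injective_ringHom φ.injective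
    obtain ⟨B, F, h1, h2⟩ := h K φ hK ℓ hℓ
    exact Pool.Agent.NIPFields.RB.tl_of_thin hK hℓ (Nat.cast_ne_zero.2 hℓ.ne_zero)
      ⟨B, F, fun _ _ => trivial, h1, h2⟩
  tfae_finish

open Pool.Agent.Results.MP_3554b5_lc.CharZeroEquivalence in
/-- Shelah's conjecture for all NIP fields of all characteristics is equivalent to the statement that
all NIP fields of characteristic zero are large. In characteristic zero it is moreover equivalent to
the statement that every NIP field is, for every prime `ℓ`, covered by the rational points of finitely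
many curves `y ^ ℓ = f(x)`, where `f` is a product of linear factors and not a constant times an
`ℓ`-th power; here all statements may be restricted to the NIP fields `K` which contain a given
algebraic extension `k` of `ℚ`. -/
theorem Pool.Agent.Results.MP_3554b5_lc.CharZeroEquivalence.result :
    -- Shelah's conjecture for all fields, if and only if all NIP fields of characteristic zero are large
    ((∀ (K : Type u) [Field K] [CompatibleRing K], NIP K → Shelah K) ↔
      ∀ (K : Type u) [Field K] [CharZero K] [CompatibleRing K], NIP K → Large K) ∧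
    ∀ (k : Type v) [Field k] [CharZero k], (∀ x : k, IsAlgebraic ℤ x) →
      List.TFAE [
        -- Shelah's conjecture for the NIP fields containing `k`
        ∀ (K : Type u) [Field K] [CompatibleRing K] (_ : k →+* K), NIP K → Shelah K,
        -- the NIP fields containing `k` are large
        ∀ (K : Type u) [Field K] [CompatibleRing K] (_ : k →+* K), NIP K → Large K,
        -- a special case of largeness
        ∀ (K : Type u) [Field K] [CompatibleRing K] (_ : k →+* K), NIP K →
          ∀ ℓ : ℕ, ℓ.Prime → ∀ A : Finset K, ∃ δ : K, δ ≠ 0 ∧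
            ∀ a ∈ A, ∃ b : K, b ≠ 0 ∧ 1 + a * δ = b ^ ℓ,
        -- its Ramsey form
        ∀ (K : Type u) [Field K] [CompatibleRing K] (_ : k →+* K), NIP K →
          ∀ ℓ : ℕ, ℓ.Prime → ∀ n : ℕ, ∃ N : ℕ, ∀ B : Finset K, N ≤ B.card →
            ∃ C ⊆ B, C.card = n ∧ ∃ δ : K, δ ≠ 0 ∧
              ∀ a ∈ C, ∃ b : K, b ≠ 0 ∧ 1 + a * δ = b ^ ℓ,
        -- the NIP fields containing `k` are covered by finitely many Kummer curves of degree `ℓ`
        ∀ (K : Type u) [Field K] [CompatibleRing K] (_ : k →+* K), NIP K →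
          ∀ ℓ : ℕ, ℓ.Prime → Thin K ℓ] := by
  have hQ : ∀ x : ℚ, IsAlgebraic ℤ x := fun x =>
    (IsFractionRing.isAlgebraic_iff ℤ ℚ ℚ).2 (isAlgebraic_algebraMap x)
  have h12 : (∀ (K : Type u) [Field K] [CompatibleRing K] (_ : ℚ →+* K), NIP K → Shelah K) ↔
      ∀ (K : Type u) [Field K] [CompatibleRing K] (_ : ℚ →+* K), NIP K → Large K :=
    (tfae.{u, 0} ℚ hQ).out 0 1
  refine ⟨⟨fun h K _ _ _ hK => ?_, fun h K _ _ hK => ?_⟩, fun k _ _ hk => tfae k hk⟩
  · exact h12.1 (fun K _ _ _ hK => h K hK) K (algebraMap ℚ K) hK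
  · obtain ⟨p, hchp⟩ := CharP.exists K
    rcases CharP.char_is_prime_or_zero K p with hp | hp
    · have : Fact p.Prime := ⟨hp⟩
      rcases Pool.Agent.PCH.shelah_positive hK p with h | h | ⟨O, h1, h2, h3⟩
      · exact Or.inl h
      · exact Or.inr (Or.inl h)
      · exact Or.inr (Or.inr (Or.inr ⟨O, h1, h2,
          Pool.Agent.NIPFields.exists_formula_of_definable h3⟩))
    · subst hp
      have _ : CharZero K := CharP.charP_to_charZero K
      refine h12.2 (fun F _ _ φ hF => ?_) K (algebraMap ℚ K) hK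
      have _ : CharZero F := charZero_of_injective_ringHom φ.injective
      exact h F hF
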