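import Mathlib
import Pool.Agent.PCH.Rainbow
import Pool.Agent.NIPFields.Final

set_option autoImplicit false

open FirstOrder FirstOrder.Language FirstOrder.Ring

universe u

/-- **Shelah's conjecture in positive characteristic.** Let `K` be a field of characteristic `p > 0`
whose ring-language formulas all lack the independence property. Then `K` is finite, or separably
closed, or has a non-trivial henselian valuation ring which is definable with parameters in the
language of rings. -/
theorem Pool.Agent.Results.MP_3554b5_lc.PositiveCharacteristic.result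
    (K : Type u) [Field K] [CompatibleRing K] (p : ℕ) (hp : p.Prime) [CharP K p]
    (hK : ∀ (m k : ℕ) (φ : Language.ring.Formula (Fin m ⊕ Fin k)),
      ∃ n : ℕ, ∀ (a : Fin n → Fin m → K) (b : Finset (Fin n) → Fin k → K),
        ∃ (i : Fin n) (J : Finset (Fin n)),
          ¬ (φ.Realize (Sum.elim (a i) (b J)) ↔ i ∈ J)) :
    Finite K ∨ IsSepClosed K ∨
      ∃ O : ValuationSubring K, O ≠ ⊤ ∧ HenselianLocalRing O ∧
        ∃ (m : ℕ) (ψ : Language.ring.Formula (Fin 1 ⊕ Fin m)) (c : Fin m → K),
          ∀ x : K, x ∈ O ↔ ψ.Realize (Sum.elim (fun _ => x) c) := by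
  have : Fact p.Prime := ⟨hp⟩
  rcases Pool.Agent.PCH.shelah_positive hK p with h | h | ⟨O, h1, h2, h3⟩
  · exact Or.inl h
  · exact Or.inr (Or.inl h)
  · exact Or.inr (Or.inr ⟨O, h1, h2, Pool.Agent.NIPFields.exists_formula_of_definable h3⟩)
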