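import Mathlib
import Pool.Agent.SRF.Main

set_option autoImplicit false

open FirstOrder FirstOrder.Language FirstOrder.Ring

universe u

/-- The chain condition (R): for every formula `φ (x; y)` of the language of rings, `x` one variable,
there is `N` such that in every chain `G 0 ≥ G 1 ≥ ... ≥ G N` of subgroups of `(K, +)`, each defined
by an instance of `φ` over `K`, some index `[G n : G (n + 1)]`, `n < N`, is finite and at most `N`.

Literature: (R) holds in every field whose theory is rosy. In a model of a rosy theory there is no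
infinite chain of uniformly definable subgroups with all indices infinite (Ealy, Krupiński, Pillay);
if (R) failed for `φ`, then by compactness (`the index is greater than N` is a first-order condition on
the parameters) an elementary extension would contain such a chain. -/
def Pool.Agent.Results.MP_3554b5_lc.SuperrosyFields.R (K : Type u) [Field K]
    [CompatibleRing K] : Prop :=
  ∀ (k : ℕ) (φ : Language.ring.Formula (Fin 1 ⊕ Fin k)), ∃ N : ℕ,
    ∀ (G : ℕ → AddSubgroup K) (c : ℕ → Fin k → K),
      (∀ n ≤ N, ∀ x : K, x ∈ G n ↔ φ.Realize (Sum.elim (fun _ => x) (c n))) →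
      (∀ n < N, G (n + 1) ≤ G n) →
        ∃ n < N, 0 < (G (n + 1)).relIndex (G n) ∧ (G (n + 1)).relIndex (G n) ≤ N

/-- `I L ℓ`: the chain of the groups of `ℓ ^ n`-th powers, `n = 0, 1, 2, ...`, of `Lˣ` has infinite
indices.

Literature: if `K` is superrosy and `L` is a finite extension of `K`, there is no infinite chain of
definable subgroups of `Lˣ` with infinite indices (Ealy, Krupiński, Pillay), so `I L ℓ` is false. -/
def Pool.Agent.Results.MP_3554b5_lc.SuperrosyFields.I (L : Type u) [Field L] (ℓ : ℕ) : Prop :=
  ∀ n : ℕ, ((powMonoidHom (ℓ ^ (n + 1)) : Lˣ →* Lˣ).range).relIndex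
    (powMonoidHom (ℓ ^ n) : Lˣ →* Lˣ).range = 0

open Pool.Agent.Results.MP_3554b5_lc.SuperrosyFields in
/-- **Structure of the NIP fields without nontrivial definable valuations, in particular of the rosy
NIP fields.** Let `K` be an infinite field whose ring-language formulas all lack the independence
property. Then `K` is algebraically closed, or its algebraic closure has degree `2` (`K` is real
closed), or `K` is separably closed of characteristic `p` with `I K p`, or `K` has a nontrivial valuation
ring definable with parameters and (R) fails in `K`, or `K` has characteristic zero and for all finite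
extensions `L` and primes `ℓ` such that `L` contains a square root of `-1` and not all elements of
`L` are `ℓ`-th powers (there are such `L` and `ℓ`, also with a primitive `ℓ`-th root of unity in `L`)
* `I L ℓ` holds,
* every finite `ℓ`-group is the Galois group of a finite Galois extension of a finite extension
  of `K`,
* if `K` contains all algebraic numbers, every finite `ℓ`-group is the Galois group of a finite
  Galois extension of `L`,
* if `L` contains a primitive `ℓ`-th root of unity, `L` is not covered by the sets of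
  `x`-coordinates of the `L`-rational points of finitely many curves `y ^ ℓ = a ∏ (x + b) ^ (n b)`,
  with `a ≠ 0` and not all exponents divisible by `ℓ`.

In a superrosy field (R) holds and all `I L ℓ` are false (see the definitions of `R` and `I`), so an
infinite superrosy NIP field is algebraically closed or real closed: the conjecture of Ealy, Krupiński
and Pillay. A rosy NIP field of positive characteristic is finite or separably closed. -/
theorem Pool.Agent.Results.MP_3554b5_lc.SuperrosyFields.result
    (K : Type u) [Field K] [Infinite K] [CompatibleRing K]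
    (hK : ∀ (m k : ℕ) (φ : Language.ring.Formula (Fin m ⊕ Fin k)),
      ∃ n : ℕ, ∀ (a : Fin n → Fin m → K) (b : Finset (Fin n) → Fin k → K),
        ∃ (i : Fin n) (J : Finset (Fin n)),
          ¬ (φ.Realize (Sum.elim (a i) (b J)) ↔ i ∈ J)) :
    IsAlgClosed K ∨ Module.finrank K (AlgebraicClosure K) = 2 ∨
      (∃ p : ℕ, p.Prime ∧ CharP K p ∧ IsSepClosed K ∧ I K p) ∨
      ((∃ O : ValuationSubring K, O ≠ ⊤ ∧
        ∃ (m : ℕ) (ψ : Language.ring.Formula (Fin 1 ⊕ Fin m)) (c : Fin m → K),
          ∀ x : K, x ∈ O ↔ ψ.Realize (Sum.elim (fun _ => x) c)) ∧ ¬ R K) ∨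
      (CharZero K ∧
        (∃ (L : Type u) (_ : Field L) (_ : Algebra K L) (ℓ : ℕ), FiniteDimensional K L ∧
          ℓ.Prime ∧ (∃ i : L, i ^ 2 = -1) ∧ (∃ a : L, ∀ y : L, a ≠ y ^ ℓ) ∧
            ∃ ζ : L, IsPrimitiveRoot ζ ℓ) ∧
        ∀ (L : Type u) [Field L] [Algebra K L] [FiniteDimensional K L] (ℓ : ℕ), ℓ.Prime →
          (∃ i : L, i ^ 2 = -1) → (∃ a : L, ∀ y : L, a ≠ y ^ ℓ) →
            I L ℓ ∧
            (∀ (Q : Type) [Group Q], Finite Q → IsPGroup ℓ Q →
              ∃ (E : Type u) (_ : Field E) (_ : Algebra K E), FiniteDimensional K E ∧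
                ∃ (M : Type u) (_ : Field M) (_ : Algebra E M), FiniteDimensional E M ∧
                  IsGalois E M ∧ Nonempty (Q ≃* (M ≃ₐ[E] M))) ∧
            (Nonempty (AlgebraicClosure ℚ →+* K) →
              ∀ (Q : Type) [Group Q], Finite Q → IsPGroup ℓ Q →
                ∃ (M : Type u) (_ : Field M) (_ : Algebra L M), FiniteDimensional L M ∧
                  IsGalois L M ∧ Nonempty (Q ≃* (M ≃ₐ[L] M))) ∧
            ((∃ ζ : L, IsPrimitiveRoot ζ ℓ) → ∀ (B : Finset L) (F : Finset (L × (L → ℕ))),
              (∀ f ∈ F, f.1 ≠ 0 ∧ ∃ b ∈ B, ¬ ℓ ∣ f.2 b) →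
                ∃ x : L, ∀ f ∈ F, ∀ y : L, y ^ ℓ ≠ f.1 * ∏ b ∈ B, (x + b) ^ f.2 b)) := by
  by_cases hd : ∃ O : ValuationSubring K, O ≠ ⊤ ∧
      (Set.univ : Set K).Definable₁ Language.ring {x | x ∈ O}
  · obtain ⟨O, h1, h2⟩ := hd
    exact Or.inr (Or.inr (Or.inr (Or.inl
      ⟨⟨O, h1, Pool.Agent.NIPFields.exists_formula_of_definable h2⟩,
        fun hR => Pool.Agent.SRF.no_definable hR h1 h2⟩)))
  · have no : ∀ O : ValuationSubring K, O ≠ ⊤ →
        ¬ (Set.univ : Set K).Definable₁ Language.ring {x | x ∈ O} :=
      fun O h1 h2 => hd ⟨O, h1, h2⟩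
    obtain ⟨p, hchp⟩ := CharP.exists K
    rcases CharP.char_is_prime_or_zero K p with hp | hp
    · obtain ⟨h1, h2 | h2⟩ := Pool.Agent.SRF.positive hK no hp
      · exact Or.inl h2
      · exact Or.inr (Or.inr (Or.inl ⟨p, hp, hchp, h1, h2⟩))
    · subst hp
      have _ : CharZero K := CharP.charP_to_charZero K
      rcases Pool.Agent.SRF.exists_finite_ext (K := K) with h | h | h
      · exact Or.inl h
      · exact Or.inr (Or.inl h)
      · exact Or.inr (Or.inr (Or.inr (Or.inr ⟨inferInstance, h, fun L _ _ _ ℓ hℓ hi ha =>
          Pool.Agent.SRF.local_statement hK no hℓ hi ha⟩)))
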